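import Mathlib

set_option autoImplicit false

open Pointwise

namespace Pool.Agent.Helper56.RS

/-- the ball of radius `n` -/
def Bl {G : Type*} [Group G] (S : Set G) (n : ℕ) : Set G := (({1} : Set G) ∪ S ∪ S⁻¹) ^ n

section Balls

variable {G : Type*} [Group G] {S : Set G}

theorem one_mem_base : (1 : G) ∈ (({1} : Set G) ∪ S ∪ S⁻¹) := Or.inl (Or.inl rfl)

theorem inv_base : (({1} : Set G) ∪ S ∪ S⁻¹)⁻¹ = (({1} : Set G) ∪ S ∪ S⁻¹) := by
  ext x
  simp only [Set.union_inv, inv_inv, Set.mem_union, Set.mem_inv, Set.mem_singleton_iff,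
    inv_eq_one]
  tauto

theorem one_mem_Bl (n : ℕ) : (1 : G) ∈ Bl S n := Set.one_mem_pow one_mem_base

theorem Bl_mono {m n : ℕ} (h : m ≤ n) : Bl S m ⊆ Bl S n :=
  Set.pow_subset_pow_right one_mem_base h

theorem mul_mem_Bl {m n : ℕ} {x y : G} (hx : x ∈ Bl S m) (hy : y ∈ Bl S n) :
    x * y ∈ Bl S (m + n) := by
  unfold Bl
  rw [pow_add]
  exact Set.mul_mem_mul hx hy

theorem inv_mem_Bl {n : ℕ} {x : G} (hx : x ∈ Bl S n) : x⁻¹ ∈ Bl S n := by
  unfold Bl at *
  rw [← inv_base, inv_pow]
  simpa using hx

theorem Bl_finite (hS : S.Finite) (n : ℕ) : (Bl S n).Finite := by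
  unfold Bl
  have hB : (({1} : Set G) ∪ S ∪ S⁻¹).Finite :=
    ((Set.finite_singleton 1).union hS).union hS.inv
  induction n with
  | zero => simp
  | succ n ih => rw [pow_succ]; exact ih.mul hB

theorem exists_mem_Bl (hgen : Subgroup.closure S = ⊤) (x : G) : ∃ n, x ∈ Bl S n := by
  have hx : x ∈ Subgroup.closure S := by rw [hgen]; trivial
  induction hx using Subgroup.closure_induction with
  | mem y hy =>
    refine ⟨1, ?_⟩
    unfold Bl
    rw [pow_one]
    exact Or.inl (Or.inr hy)
  | one => exact ⟨0, one_mem_Bl 0⟩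
  | mul a b _ _ iha ihb =>
    obtain ⟨m, hm⟩ := iha
    obtain ⟨n, hn⟩ := ihb
    exact ⟨m + n, mul_mem_Bl hm hn⟩
  | inv a _ iha =>
    obtain ⟨m, hm⟩ := iha
    exact ⟨m, inv_mem_Bl hm⟩

end Balls

section Grow

variable {G F : Type*} [Group G] [Group F] {S : Set G}

/-- the subgroup generated by the conjugates of `v` by elements of the ball of radius `j` -/
def Uc (S : Set G) (f : G →* F) (v : F) (j : ℕ) : Subgroup F :=
  Subgroup.closure {x | ∃ h ∈ Bl S j, x = f h * v * (f h)⁻¹}

theorem Uc_mono (f : G →* F) (v : F) {i j : ℕ} (h : i ≤ j) : Uc S f v i ≤ Uc S f v j := by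
  unfold Uc
  apply Subgroup.closure_mono
  rintro x ⟨g, hg, rfl⟩
  exact ⟨g, Bl_mono h hg, rfl⟩

theorem Uc_le (f : G →* F) (V : Subgroup F) [V.Normal] (v : F) (hv : v ∈ V) (j : ℕ) :
    Uc S f v j ≤ V := by
  unfold Uc
  rw [Subgroup.closure_le]
  rintro x ⟨g, _, rfl⟩
  exact Subgroup.Normal.conj_mem inferInstance v hv _

theorem mem_Uc (f : G →* F) (v : F) (j : ℕ) : v ∈ Uc S f v j :=
  Subgroup.subset_closure ⟨1, one_mem_Bl j, by simp⟩

/-- if the chain stops growing, then it is normal -/
theorem Uc_normal (hgen : Subgroup.closure S = ⊤) (f : G →* F) (hf : Function.Surjective f)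
    (v : F) (j : ℕ) (h : Uc S f v (j + 1) ≤ Uc S f v j) : (Uc S f v j).Normal := by
  have key : ∀ n : ℕ, ∀ g ∈ Bl S n, ∀ x ∈ Uc S f v j, f g * x * (f g)⁻¹ ∈ Uc S f v j := by
    intro n
    induction n with
    | zero =>
      intro g hg x hx
      have : g = 1 := by simpa [Bl] using hg
      subst this
      simpa using hx
    | succ n ih =>
      intro g hg x hx
      unfold Bl at hg
      rw [pow_succ] at hg
      obtain ⟨a, ha, b, hb, rfl⟩ := Set.mem_mul.1 hg
      have hb' : b ∈ Bl S 1 := by unfold Bl; rw [pow_one]; exact hb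
      have h1 : f b * x * (f b)⁻¹ ∈ Uc S f v j := by
        apply h
        have hle : Uc S f v j ≤ (Uc S f v (j + 1)).comap (MulAut.conj (f b)).toMonoidHom := by
          conv_lhs => unfold Uc
          rw [Subgroup.closure_le]
          rintro y ⟨k, hk, rfl⟩
          simp only [Subgroup.coe_comap, Set.mem_preimage, MulEquiv.toMonoidHom_eq_coe,
            MonoidHom.coe_coe, MulAut.conj_apply, SetLike.mem_coe]
          apply Subgroup.subset_closure
          refine ⟨b * k, ?_, ?_⟩
          · rw [add_comm]; exact mul_mem_Bl hb' hk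
          · simp [mul_assoc]
        have := hle hx
        simpa using this
      have h2 := ih a ha _ h1
      have e : f (a * b) * x * (f (a * b))⁻¹ = f a * (f b * x * (f b)⁻¹) * (f a)⁻¹ := by
        simp [mul_assoc]
      rw [e]
      exact h2
  refine ⟨fun x hx g => ?_⟩
  obtain ⟨g', rfl⟩ := hf g
  obtain ⟨n, hn⟩ := exists_mem_Bl hgen g'
  exact key n g' hn x hx

/-- in a group of prime power order a proper inclusion multiplies the order by at least `p` -/
theorem card_mul_le {p d : ℕ} (hp : p.Prime) (V A B : Subgroup F) (hVc : Nat.card V = p ^ d)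
    (hB : B ≤ V) (hAB : A ≤ B) (hne : A ≠ B) : Nat.card A * p ≤ Nat.card B := by
  have hBd : Nat.card B ∣ p ^ d := hVc ▸ Subgroup.card_dvd_of_le hB
  have hAd : Nat.card A ∣ Nat.card B := Subgroup.card_dvd_of_le hAB
  obtain ⟨b, hb, hBb⟩ := (Nat.dvd_prime_pow hp).1 hBd
  obtain ⟨a, ha, hAa⟩ := (Nat.dvd_prime_pow hp).1 (hAd.trans hBd)
  have hBpos : 0 < Nat.card B := by rw [hBb]; exact pow_pos hp.pos _
  have hfin : Finite B := Nat.finite_of_card_ne_zero hBpos.ne'
  have hab : a < b := by
    by_contra h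
    push Not at h
    apply hne
    apply Subgroup.eq_of_le_of_card_ge hAB
    rw [hAa, hBb]
    exact Nat.pow_le_pow_right hp.pos h
  rw [hAa, hBb]
  calc p ^ a * p = p ^ (a + 1) := by rw [pow_succ]
    _ ≤ p ^ b := Nat.pow_le_pow_right hp.pos hab

/-- the chain of subgroups generated by conjugates grows at least like `p ^ (k + 1)` until it
reaches the minimal normal subgroup `V` -/
theorem Uc_card (hgen : Subgroup.closure S = ⊤) (f : G →* F) (hf : Function.Surjective f)
    {p d : ℕ} (hp : p.Prime) (V : Subgroup F) [V.Normal] (hVc : Nat.card V = p ^ d)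
    (hmin : ∀ W : Subgroup F, W.Normal → W ≤ V → W = ⊥ ∨ W = V)
    (v : F) (hv : v ∈ V) (hv1 : v ≠ 1) (k : ℕ) :
    Uc S f v k = V ∨ p ^ (k + 1) ≤ Nat.card (Uc S f v k) := by
  induction k with
  | zero =>
    right
    have h := card_mul_le hp V ⊥ (Uc S f v 0) hVc (Uc_le f V v hv 0) bot_le (by
      intro h
      have h1 : v ∈ (⊥ : Subgroup F) := by rw [h]; exact mem_Uc f v 0
      exact hv1 (by simpa using h1))
    simpa using h
  | succ k ih =>
    rcases ih with ih | ih
    · left
      apply le_antisymm (Uc_le f V v hv _)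
      rw [← ih]
      exact Uc_mono f v (Nat.le_succ k)
    · by_cases h : Uc S f v (k + 1) ≤ Uc S f v k
      · left
        have hn := Uc_normal hgen f hf v k h
        have heq : Uc S f v k = Uc S f v (k + 1) := le_antisymm (Uc_mono f v (Nat.le_succ k)) h
        rw [← heq]
        rcases hmin _ hn (Uc_le f V v hv k) with h1 | h1
        · exfalso
          have h2 : v ∈ (⊥ : Subgroup F) := by rw [← h1]; exact mem_Uc f v k
          exact hv1 (by simpa using h2)
        · exact h1
      · right
        have h1 := card_mul_le hp V (Uc S f v k) (Uc S f v (k + 1)) hVc (Uc_le f V v hv _)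
          (Uc_mono f v (Nat.le_succ k)) (fun e => h (le_of_eq e.symm))
        calc p ^ (k + 1 + 1) = p ^ (k + 1) * p := by rw [pow_succ]
          _ ≤ Nat.card (Uc S f v k) * p := Nat.mul_le_mul_right _ ih
          _ ≤ _ := h1

/-- some conjugate by an element of length at most `k` avoids a subgroup of order at most `p ^ k` -/
theorem exists_conj_notMem (hgen : Subgroup.closure S = ⊤) (f : G →* F)
    (hf : Function.Surjective f)
    {p d : ℕ} (hp : p.Prime) (V : Subgroup F) [V.Normal] (hVc : Nat.card V = p ^ d)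
    (hmin : ∀ W : Subgroup F, W.Normal → W ≤ V → W = ⊥ ∨ W = V)
    (v : F) (hv : v ∈ V) (hv1 : v ≠ 1) (k : ℕ) (hk : k < d) (W : Subgroup F) (hWV : W ≤ V)
    (hWc : Nat.card W ≤ p ^ k) : ∃ h ∈ Bl S k, f h * v * (f h)⁻¹ ∉ W := by
  by_contra hcon
  push Not at hcon
  have hle : Uc S f v k ≤ W := by
    unfold Uc
    rw [Subgroup.closure_le]
    rintro x ⟨g, hg, rfl⟩
    exact hcon g hg
  have hVpos : Nat.card V ≠ 0 := by rw [hVc]; exact (pow_pos hp.pos _).ne'
  have hfinV : Finite V := Nat.finite_of_card_ne_zero hVpos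
  have hfinW : Finite W := Finite.of_injective (Subgroup.inclusion hWV)
    (Subgroup.inclusion_injective hWV)
  have hc : Nat.card (Uc S f v k) ≤ Nat.card W := Subgroup.card_le_of_le hle
  rcases Uc_card hgen f hf hp V hVc hmin v hv hv1 k with h | h
  · rw [h, hVc] at hc
    have := (Nat.pow_le_pow_iff_right hp.one_lt).1 (hc.trans hWc)
    omega
  · have := (Nat.pow_le_pow_iff_right hp.one_lt).1 ((h.trans hc).trans hWc)
    omega

/-- adding one element of order dividing `p` -/
theorem exists_sup {p : ℕ} (hp : p.Prime) (V W : Subgroup F) (hWV : W ≤ V)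
    (hcomm : ∀ x ∈ V, ∀ y ∈ V, x * y = y * x) (y : F) (hy : y ∈ V) (hyp : y ^ p = 1) :
    ∃ W' : Subgroup F, W ≤ W' ∧ y ∈ W' ∧ W' ≤ V ∧ Nat.card W' ≤ Nat.card W * p := by
  have comm : ∀ (m : W) (n : Subgroup.zpowers y),
      Commute (W.subtype m) ((Subgroup.zpowers y).subtype n) := by
    intro m n
    apply hcomm _ (hWV m.2)
    have : Subgroup.zpowers y ≤ V := by rwa [Subgroup.zpowers_le]
    exact this n.2
  have hfin : Finite (Subgroup.zpowers y) := by
    have h0 : IsOfFinOrder y := isOfFinOrder_iff_pow_eq_one.2 ⟨p, hp.pos, hyp⟩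
    exact (finite_zpowers.2 h0).to_subtype
  refine ⟨(MonoidHom.noncommCoprod W.subtype (Subgroup.zpowers y).subtype comm).range,
    ?_, ?_, ?_, ?_⟩
  · rw [MonoidHom.noncommCoprod_range]
    intro x hx
    exact Subgroup.mem_sup_left ⟨⟨x, hx⟩, rfl⟩
  · rw [MonoidHom.noncommCoprod_range]
    exact Subgroup.mem_sup_right ⟨⟨y, Subgroup.mem_zpowers y⟩, rfl⟩
  · rw [MonoidHom.noncommCoprod_range]
    apply sup_le
    · rintro x ⟨w, rfl⟩
      exact hWV w.2
    · rintro x ⟨w, rfl⟩
      have : Subgroup.zpowers y ≤ V := by rwa [Subgroup.zpowers_le]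
      exact this w.2
  · by_cases hW : Finite W
    · have h1 : Nat.card (MonoidHom.noncommCoprod W.subtype (Subgroup.zpowers y).subtype comm).range
          ≤ Nat.card (W × Subgroup.zpowers y) :=
        Nat.card_le_card_of_surjective
          (MonoidHom.noncommCoprod W.subtype (Subgroup.zpowers y).subtype comm).rangeRestrict
          (MonoidHom.rangeRestrict_surjective _)
      rw [Nat.card_prod, Nat.card_zpowers] at h1
      exact h1.trans (Nat.mul_le_mul_left _ (Nat.le_of_dvd hp.pos (orderOf_dvd_of_pow_eq_one hyp)))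
    · have h0 : Nat.card W = 0 := Nat.card_eq_zero.2 (Or.inr (not_finite_iff_infinite.1 hW))
      rw [h0, zero_mul, nonpos_iff_eq_zero]
      apply Nat.card_eq_zero.2
      right
      rw [MonoidHom.noncommCoprod_range]
      have hle : W ≤ W.subtype.range ⊔ (Subgroup.zpowers y).subtype.range := by
        intro x hx
        exact Subgroup.mem_sup_left ⟨⟨x, hx⟩, rfl⟩
      have := not_finite_iff_infinite.1 hW
      exact Infinite.of_injective (Subgroup.inclusion hle) (Subgroup.inclusion_injective hle)

/-- **(B1)** an element of length `L` which is nontrivial in the minimal normal subgroup `V` of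
order `p ^ d` of a quotient forces `2 ^ d` elements in the ball of radius `d * (L + d)`. -/
theorem grow (hS : S.Finite) (hgen : Subgroup.closure S = ⊤) (f : G →* F)
    (hf : Function.Surjective f)
    {p d : ℕ} (hp : p.Prime) (V : Subgroup F) [V.Normal] (hVc : Nat.card V = p ^ d)
    (hcomm : ∀ x ∈ V, ∀ y ∈ V, x * y = y * x) (hexp : ∀ x ∈ V, x ^ p = 1)
    (hmin : ∀ W : Subgroup F, W.Normal → W ≤ V → W = ⊥ ∨ W = V)
    (v : G) (L : ℕ) (hvL : v ∈ Bl S L) (hv : f v ∈ V) (hv1 : f v ≠ 1) :
    2 ^ d ≤ Nat.card (Bl S (d * (L + d))) := by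
  classical
  have key : ∀ k ≤ d, ∃ (E : Finset G) (g : G) (W : Subgroup F), (∀ x ∈ E, x ∈ Bl S (k * (L + k))) ∧
      E.card = 2 ^ k ∧ (∀ x ∈ E, f x * (f g)⁻¹ ∈ W) ∧ W ≤ V ∧ Nat.card W ≤ p ^ k := by
    intro k
    induction k with
    | zero =>
      intro _
      refine ⟨{1}, 1, ⊥, ?_, by simp, ?_, bot_le, by simp⟩
      · intro x hx
        rw [Finset.mem_singleton] at hx
        subst hx
        exact one_mem_Bl _
      · intro x hx
        rw [Finset.mem_singleton] at hx
        subst hx
        simp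
    | succ k ih =>
      intro hk
      obtain ⟨E, g, W, hE, hEc, hEW, hWV, hWc⟩ := ih (by omega)
      -- the conjugate subgroup
      let W0 : Subgroup F := W.map (MulAut.conj (f g)⁻¹).toMonoidHom
      have hW0V : W0 ≤ V := by
        rintro x ⟨w, hw, rfl⟩
        simpa using Subgroup.Normal.conj_mem (inferInstanceAs V.Normal) w (hWV hw) (f g)⁻¹
      have hW0c : Nat.card W0 = Nat.card W :=
        (Nat.card_congr (W.equivMapOfInjective _ (MulAut.conj (f g)⁻¹).injective).toEquiv).symm
      obtain ⟨h, hh, hnot⟩ := exists_conj_notMem hgen f hf hp V hVc hmin (f v) hv hv1 k (by omega)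
        W0 hW0V (by rw [hW0c]; exact hWc)
      set y : F := f g * (f h * f v * (f h)⁻¹) * (f g)⁻¹ with hy
      have hyW : y ∉ W := by
        intro hyW
        apply hnot
        refine ⟨y, hyW, ?_⟩
        simp [hy, mul_assoc]
      have hyV : y ∈ V := Subgroup.Normal.conj_mem inferInstance _
        (Subgroup.Normal.conj_mem inferInstance _ hv _) _
      obtain ⟨W', hWW', hyW', hW'V, hW'c⟩ := exists_sup hp V W hWV hcomm y hyV (hexp y hyV)
      have hlen : k * (L + k) + k + L ≤ (k + 1) * (L + (k + 1)) := by nlinarith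
      refine ⟨E.image (fun x => x * h) ∪ E.image (fun x => x * h * v), g * h, W', ?_, ?_, ?_,
        hW'V, ?_⟩
      · intro x hx
        rw [Finset.mem_union, Finset.mem_image, Finset.mem_image] at hx
        rcases hx with ⟨e, he, rfl⟩ | ⟨e, he, rfl⟩
        · exact Bl_mono (by omega) (mul_mem_Bl (hE e he) hh)
        · exact Bl_mono hlen (mul_mem_Bl (mul_mem_Bl (hE e he) hh) hvL)
      · rw [Finset.card_union_of_disjoint, Finset.card_image_of_injective,
          Finset.card_image_of_injective, hEc, pow_succ]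
        · ring
        · intro a b hab
          simpa using hab
        · intro a b hab
          simpa using hab
        · rw [Finset.disjoint_left]
          intro x hx hx'
          rw [Finset.mem_image] at hx hx'
          obtain ⟨a, ha, rfl⟩ := hx
          obtain ⟨b, hb, hab⟩ := hx'
          apply hyW
          have h1 := hEW a ha
          have h2 := hEW b hb
          have h3 : f a = f b * f h * f v * (f h)⁻¹ := by
            have := congrArg f hab
            simp only [map_mul] at this
            rw [this]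
            group
          have h4 : y = (f b * (f g)⁻¹)⁻¹ * (f a * (f g)⁻¹) := by
            rw [h3, hy]
            group
          rw [h4]
          exact W.mul_mem (W.inv_mem h2) h1
      · intro x hx
        rw [Finset.mem_union, Finset.mem_image, Finset.mem_image] at hx
        rcases hx with ⟨e, he, rfl⟩ | ⟨e, he, rfl⟩
        · have : f (e * h) * (f (g * h))⁻¹ = f e * (f g)⁻¹ := by
            simp only [map_mul]; group
          rw [this]
          exact hWW' (hEW e he)
        · have : f (e * h * v) * (f (g * h))⁻¹ = (f e * (f g)⁻¹) * y := by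
            rw [hy]; simp only [map_mul]; group
          rw [this]
          exact W'.mul_mem (hWW' (hEW e he)) hyW'
      · calc Nat.card W' ≤ Nat.card W * p := hW'c
          _ ≤ p ^ k * p := Nat.mul_le_mul_right _ hWc
          _ = p ^ (k + 1) := by rw [pow_succ]
  obtain ⟨E, g, W, hE, hEc, -⟩ := key d le_rfl
  rw [← hEc]
  have hfin := Bl_finite (S := S) hS (d * (L + d))
  have : (E : Set G) ⊆ Bl S (d * (L + d)) := fun x hx => hE x hx
  calc E.card = (E : Set G).ncard := (Set.ncard_coe_finset E).symm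
    _ ≤ (Bl S (d * (L + d))).ncard := Set.ncard_le_ncard this hfin
    _ = Nat.card (Bl S (d * (L + d))) := rfl

end Grow

end Pool.Agent.Helper56.RS
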