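import Mathlib

set_option autoImplicit false

open scoped commutatorElement

namespace Pool.Agent.Helper56.RS

/-- `U` is a self-centralising minimal normal subgroup of order `p ^ d`, elementary abelian -/
structure Prim {P : Type*} [Group P] (U : Subgroup P) (p d : ℕ) : Prop where
  prime : p.Prime
  normal : U.Normal
  card : Nat.card U = p ^ d
  pos : 0 < d
  comm : ∀ x ∈ U, ∀ y ∈ U, x * y = y * x
  exp : ∀ x ∈ U, x ^ p = 1
  min : ∀ W : Subgroup P, W.Normal → W ≤ U → W = ⊥ ∨ W = U
  cent : ∀ x : P, (∀ y ∈ U, x * y = y * x) → x ∈ U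

/-- a nontrivial finite soluble group has an elementary abelian minimal normal subgroup -/
theorem exists_min_normal {F : Type*} [Group F] [Finite F] [Group.IsSolvable F] [Nontrivial F] :
    ∃ (U : Subgroup F) (p d : ℕ), p.Prime ∧ U.Normal ∧ Nat.card U = p ^ d ∧ 0 < d ∧
      (∀ x ∈ U, ∀ y ∈ U, x * y = y * x) ∧ (∀ x ∈ U, x ^ p = 1) ∧
      (∀ W : Subgroup F, W.Normal → W ≤ U → W = ⊥ ∨ W = U) := by
  classical
  set s : Set ℕ := {n | ∃ U : Subgroup F, U.Normal ∧ U ≠ ⊥ ∧ Nat.card U = n} with hs
  have hne : s.Nonempty := ⟨Nat.card (⊤ : Subgroup F), ⊤, inferInstance, top_ne_bot, rfl⟩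
  obtain ⟨U, hUn, hU0, hUc⟩ := Nat.sInf_mem hne
  have hmin : ∀ W : Subgroup F, W.Normal → W ≤ U → W = ⊥ ∨ W = U := by
    intro W hW hWU
    by_cases h : W = ⊥
    · exact Or.inl h
    · right
      apply Subgroup.eq_of_le_of_card_ge hWU
      rw [hUc]
      exact Nat.sInf_le ⟨W, hW, h, rfl⟩
  have hcomm : ∀ x ∈ U, ∀ y ∈ U, x * y = y * x := by
    have hlt := Group.IsSolvable.commutator_lt_of_ne_bot hU0
    rcases hmin ⁅U, U⁆ inferInstance hlt.le with h | h
    · intro x hx y hy
      have : ⁅x, y⁆ ∈ ⁅U, U⁆ := Subgroup.commutator_mem_commutator hx hy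
      rw [h, Subgroup.mem_bot] at this
      exact commutatorElement_eq_one_iff_mul_comm.1 this
    · exact absurd h hlt.ne
  have hUnt : Nat.card U ≠ 1 := fun h => hU0 (Subgroup.card_eq_one.1 h)
  obtain ⟨p, hp, hpd⟩ := Nat.exists_prime_and_dvd hUnt
  have : Fact p.Prime := ⟨hp⟩
  obtain ⟨u, hu⟩ := exists_prime_orderOf_dvd_card' p hpd
  let W : Subgroup F :=
    { carrier := {x | x ∈ U ∧ x ^ p = 1}
      mul_mem' := by
        rintro a b ⟨ha, ha1⟩ ⟨hb, hb1⟩
        refine ⟨U.mul_mem ha hb, ?_⟩
        have hc : Commute a b := hcomm a ha b hb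
        rw [hc.mul_pow, ha1, hb1, one_mul]
      one_mem' := ⟨U.one_mem, one_pow _⟩
      inv_mem' := by
        rintro a ⟨ha, ha1⟩
        exact ⟨U.inv_mem ha, by rw [inv_pow, ha1, inv_one]⟩ }
  have hWn : W.Normal := by
    refine ⟨fun x hx g => ⟨hUn.conj_mem x hx.1 g, ?_⟩⟩
    rw [conj_pow, hx.2, mul_one, mul_inv_cancel]
  have hexp : ∀ x ∈ U, x ^ p = 1 := by
    rcases hmin W hWn (fun x hx => hx.1) with h | h
    · exfalso
      have h1 : (u : F) ∈ W := ⟨u.2, by
        have := pow_orderOf_eq_one u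
        rw [hu] at this
        exact_mod_cast congrArg Subtype.val this⟩
      rw [h, Subgroup.mem_bot] at h1
      have h2 : u = 1 := Subtype.ext h1
      rw [h2, orderOf_one] at hu
      exact hp.one_lt.ne hu
    · intro x hx
      rw [← h] at hx
      exact hx.2
  have hPG : IsPGroup p U := by
    intro x
    exact ⟨1, by rw [pow_one]; exact Subtype.ext (by simpa using hexp x x.2)⟩
  obtain ⟨d, hd⟩ := IsPGroup.iff_card.1 hPG
  refine ⟨U, p, d, hp, hUn, hd, ?_, hcomm, hexp, hmin⟩
  rcases Nat.eq_zero_or_pos d with h | h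
  · rw [h, pow_zero] at hd
    exact absurd hd hUnt
  · exact h

/-- a finite soluble group with a core-free maximal subgroup is of the form `U : K` -/
theorem prim_of_coatom {F : Type*} [Group F] [Finite F] [Group.IsSolvable F] (K : Subgroup F)
    (hK : IsCoatom K) (hcore : ∀ N : Subgroup F, N.Normal → N ≤ K → N = ⊥) :
    ∃ (U : Subgroup F) (p d : ℕ), Prim U p d := by
  have hnt : Nontrivial F := by
    by_contra h
    rw [not_nontrivial_iff_subsingleton] at h
    exact hK.1 (Subsingleton.elim _ _)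
  obtain ⟨U, p, d, hp, hUn, hUc, hd, hcomm, hexp, hmin⟩ := exists_min_normal (F := F)
  refine ⟨U, p, d, hp, hUn, hUc, hd, hcomm, hexp, hmin, ?_⟩
  have hUK : ¬ U ≤ K := by
    intro h
    have h1 := hcore U hUn h
    rw [h1, Subgroup.card_bot] at hUc
    have : 1 < p ^ d := Nat.one_lt_pow hd.ne' hp.one_lt
    omega
  have hsup : K ⊔ U = ⊤ := hK.2 _ (by
    rw [left_lt_sup]; exact hUK)
  have hdec : ∀ g : F, ∃ k ∈ K, ∃ u ∈ U, g = k * u := by
    intro g
    have hg : g ∈ K ⊔ U := by rw [hsup]; trivial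
    rw [Subgroup.mem_sup_of_normal_right] at hg
    obtain ⟨k, hk, u, hu, rfl⟩ := hg
    exact ⟨k, hk, u, hu, rfl⟩
  let C : Subgroup F := Subgroup.centralizer (U : Set F)
  have hC : ∀ x, x ∈ C ↔ ∀ y ∈ U, y * x = x * y := by
    intro x
    exact Subgroup.mem_centralizer_iff
  have hCn : C.Normal := inferInstance
  have hCK : (C ⊓ K).Normal := by
    refine ⟨fun x hx g => ?_⟩
    obtain ⟨k, hk, u, hu, rfl⟩ := hdec g
    have h1 : u * x * u⁻¹ = x := by
      have := (hC x).1 hx.1 u hu
      rw [this]; group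
    have h2 : k * u * x * (k * u)⁻¹ = k * x * k⁻¹ := by
      calc k * u * x * (k * u)⁻¹ = k * (u * x * u⁻¹) * k⁻¹ := by group
        _ = _ := by rw [h1]
    rw [h2]
    exact ⟨hCn.conj_mem x hx.1 k, K.mul_mem (K.mul_mem hk hx.2) (K.inv_mem hk)⟩
  have hCK0 := hcore _ hCK inf_le_right
  intro x hx
  obtain ⟨k, hk, u, hu, rfl⟩ := hdec x
  have hkC : k ∈ C := by
    rw [hC]
    intro y hy
    have h1 := hx y hy
    have h2 := hcomm u hu y hy
    have h3 : k * y * u = y * k * u := by
      calc k * y * u = k * (y * u) := by group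
        _ = k * (u * y) := by rw [h2]
        _ = k * u * y := by group
        _ = y * (k * u) := h1
        _ = y * k * u := by group
    exact (mul_right_cancel h3).symm
  have : k ∈ C ⊓ K := ⟨hkC, hk⟩
  rw [hCK0, Subgroup.mem_bot] at this
  rw [this, one_mul]
  exact hu

/-- **(B4)** a normal subgroup `X` of a finite soluble group which is not nilpotent is not contained
in the socle of some primitive quotient -/
theorem exists_prim_quotient {F : Type*} [Group F] [Finite F] [Group.IsSolvable F] (X : Subgroup F)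
    [X.Normal] (hX : ¬ Group.IsNilpotent X) :
    ∃ (N : Subgroup F) (_ : N.Normal) (U : Subgroup (F ⧸ N)) (p d : ℕ),
      Prim U p d ∧ ¬ X.map (QuotientGroup.mk' N) ≤ U := by
  classical
  have h1 : ¬ ∀ (q : ℕ) (_hq : Fact q.Prime) (P : Sylow q X), (P : Subgroup X).Normal := by
    intro h
    exact hX (((Group.isNilpotent_of_finite_tfae (G := X)).out 0 3).2 h)
  push Not at h1
  obtain ⟨q, hq, P, hP⟩ := h1
  set P' : Subgroup F := (P : Subgroup X).map X.subtype with hP'
  have hnorm : Subgroup.normalizer (P' : Set F) ≠ ⊤ := by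
    intro h
    apply hP
    have hn : P'.Normal := Subgroup.normalizer_eq_top_iff.1 h
    have h2 : (P : Subgroup X) = P'.subgroupOf X := by
      rw [hP', Subgroup.subgroupOf, Subgroup.comap_map_eq_self_of_injective X.subtype_injective]
    rw [h2]
    infer_instance
  obtain ⟨K, hK, hNK⟩ := (eq_top_or_exists_le_coatom (Subgroup.normalizer (P' : Set F))).resolve_left hnorm
  have hsup : K ⊔ X = ⊤ := by
    rw [eq_top_iff, ← Sylow.normalizer_sup_eq_top P]
    exact sup_le_sup_right hNK X
  have hXK : ¬ X ≤ K := by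
    intro h
    rw [sup_of_le_left h] at hsup
    exact hK.1 hsup
  set N : Subgroup F := K.normalCore with hN
  have hNn : N.Normal := inferInstance
  have hNle : N ≤ K := Subgroup.normalCore_le K
  -- the quotient
  have hKq : IsCoatom (K.map (QuotientGroup.mk' N)) := by
    constructor
    · intro h
      apply hK.1
      have h2 := congrArg (Subgroup.comap (QuotientGroup.mk' N)) h
      rw [Subgroup.comap_map_eq, Subgroup.comap_top, QuotientGroup.ker_mk', sup_of_le_left hNle]
        at h2
      exact h2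
    · intro B hB
      have h2 : K < B.comap (QuotientGroup.mk' N) := by
        refine lt_of_le_of_ne ?_ ?_
        · rw [← Subgroup.map_le_iff_le_comap]; exact hB.le
        · intro h
          apply hB.ne
          rw [h, Subgroup.map_comap_eq_self_of_surjective (QuotientGroup.mk'_surjective N)]
      have h3 := hK.2 _ h2
      rw [← Subgroup.map_comap_eq_self_of_surjective (QuotientGroup.mk'_surjective N) B, h3,
        Subgroup.map_top_of_surjective _ (QuotientGroup.mk'_surjective N)]
  have hcore : ∀ M : Subgroup (F ⧸ N), M.Normal → M ≤ K.map (QuotientGroup.mk' N) → M = ⊥ := by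
    intro M hM hMK
    have h2 : M.comap (QuotientGroup.mk' N) ≤ K := by
      have := Subgroup.comap_mono (f := QuotientGroup.mk' N) hMK
      rwa [Subgroup.comap_map_eq, QuotientGroup.ker_mk', sup_of_le_left hNle] at this
    have h3 : M.comap (QuotientGroup.mk' N) ≤ N := by
      exact Subgroup.normal_le_normalCore.2 h2
    rw [eq_bot_iff, ← Subgroup.map_comap_eq_self_of_surjective (QuotientGroup.mk'_surjective N) M]
    refine (Subgroup.map_mono h3).trans ?_
    rw [Subgroup.map_le_iff_le_comap]
    intro x hx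
    rw [Subgroup.mem_comap, Subgroup.mem_bot]
    exact (QuotientGroup.eq_one_iff x).2 hx
  obtain ⟨U, r, d, hU⟩ := prim_of_coatom (K.map (QuotientGroup.mk' N)) hKq hcore
  refine ⟨N, hNn, U, r, d, hU, ?_⟩
  intro hXU
  -- `X / (X ⊓ N)` is an `r`-group
  have hr := hU.prime
  have hidx : (N.subgroupOf X).index ∣ r ^ d := by
    rw [← hU.card]
    have h2 : (N.subgroupOf X).index = Nat.card (X.map (QuotientGroup.mk' N)) := by
      have h3 : N.subgroupOf X = ((QuotientGroup.mk' N).comp X.subtype).ker := by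
        ext x
        simp [Subgroup.mem_subgroupOf, MonoidHom.mem_ker]
      rw [h3, Subgroup.index_ker, MonoidHom.range_comp, Subgroup.range_subtype]
    rw [h2]
    exact Subgroup.card_dvd_of_le hXU
  by_cases hqr : q = r
  · -- `X = P (X ⊓ N) ≤ K`
    apply hXK
    have h2 : (P : Subgroup X) ⊔ N.subgroupOf X = ⊤ := by
      rw [← Subgroup.index_eq_one]
      have h3 : ((P : Subgroup X) ⊔ N.subgroupOf X).index ∣ r ^ d :=
        (Subgroup.index_dvd_of_le le_sup_right).trans hidx
      have h4 : ((P : Subgroup X) ⊔ N.subgroupOf X).index ∣ (P : Subgroup X).index :=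
        Subgroup.index_dvd_of_le le_sup_left
      have h5 : ¬ r ∣ (P : Subgroup X).index := by
        rw [← hqr]
        exact P.not_dvd_index
      have h6 : Nat.Coprime (r ^ d) (P : Subgroup X).index :=
        Nat.Coprime.pow_left d ((Nat.Prime.coprime_iff_not_dvd hr).2 h5)
      exact Nat.eq_one_of_dvd_coprimes h6 h3 h4
    have h3 : ((P : Subgroup X) ⊔ N.subgroupOf X).map X.subtype ≤ K := by
      rw [Subgroup.map_sup]
      apply sup_le
      · exact (Subgroup.le_normalizer (H := P')).trans hNK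
      · rw [Subgroup.map_le_iff_le_comap]
        intro x hx
        exact hNle hx
    rw [h2, ← MonoidHom.range_eq_map, Subgroup.range_subtype] at h3
    exact h3
  · -- `P ≤ X ⊓ N` is a Sylow subgroup of `X ⊓ N`
    set R : Subgroup F := X ⊓ N with hR
    have hRn : R.Normal := inferInstance
    have hPR : P' ≤ R := by
      rintro _ ⟨x, hx, rfl⟩
      refine ⟨x.2, ?_⟩
      obtain ⟨k, hk⟩ := P.isPGroup' ⟨x, hx⟩
      have hk' : x ^ q ^ k = 1 := by
        have := congrArg Subtype.val hk
        simpa using this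
      have h2 : (QuotientGroup.mk' N (x : F)) ∈ U := hXU ⟨x, x.2, rfl⟩
      have h3 := hU.exp _ h2
      have h4 : (QuotientGroup.mk' N (x : F)) ^ q ^ k = 1 := by
        rw [← map_pow]
        have : (x : F) ^ q ^ k = 1 := by exact_mod_cast congrArg Subtype.val hk'
        rw [this, map_one]
      have h5 : orderOf (QuotientGroup.mk' N (x : F)) ∣ Nat.gcd r (q ^ k) :=
        Nat.dvd_gcd (orderOf_dvd_of_pow_eq_one h3) (orderOf_dvd_of_pow_eq_one h4)
      have h6 : Nat.gcd r (q ^ k) = 1 :=
        Nat.Coprime.pow_right k ((Nat.coprime_primes hr hq.out).2 (Ne.symm hqr))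
      rw [h6, Nat.dvd_one, orderOf_eq_one_iff] at h5
      exact (QuotientGroup.eq_one_iff (x : F)).1 h5
    have hPRp : IsPGroup q (P'.subgroupOf R) := by
      have h2 : IsPGroup q P' := P.isPGroup'.map X.subtype
      exact h2.comap_of_injective R.subtype R.subtype_injective
    obtain ⟨Q, hQ⟩ := hPRp.exists_le_sylow
    have hQP : (Q : Subgroup R).map R.subtype = P' := by
      apply le_antisymm
      · -- maximality of `P`
        have h2 : IsPGroup q (((Q : Subgroup R).map R.subtype).subgroupOf X) :=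
          (Q.isPGroup'.map R.subtype).comap_of_injective X.subtype X.subtype_injective
        have h3 : (P : Subgroup X) ≤ ((Q : Subgroup R).map R.subtype).subgroupOf X := by
          intro x hx
          rw [Subgroup.mem_subgroupOf]
          have hxP : (x : F) ∈ P' := ⟨x, hx, rfl⟩
          exact ⟨⟨x, hPR hxP⟩, hQ hxP, rfl⟩
        have h4 := P.is_maximal' h2 h3
        rintro _ ⟨x, hx, rfl⟩
        have h5 : (⟨(x : F), x.2.1⟩ : X) ∈ ((Q : Subgroup R).map R.subtype).subgroupOf X := by
          rw [Subgroup.mem_subgroupOf]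
          exact ⟨x, hx, rfl⟩
        rw [h4] at h5
        exact ⟨⟨(x : F), x.2.1⟩, h5, rfl⟩
      · intro x hx
        exact ⟨⟨x, hPR hx⟩, hQ hx, rfl⟩
    have h2 := Sylow.normalizer_sup_eq_top Q
    rw [hQP] at h2
    have h3 : (⊤ : Subgroup F) ≤ K := by
      rw [← h2]
      exact sup_le hNK (inf_le_right.trans hNle)
    exact hK.1 (top_le_iff.1 h3)

end Pool.Agent.Helper56.RS
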